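import Mathlib.Algebra.Homology.LocalCohomology
import Mathlib.Algebra.Homology.HomologySequenceLemmas
import Mathlib.Algebra.Homology.HomologicalComplexAbelian
import Mathlib.Algebra.Homology.ShortComplex.Linear
import Mathlib.Algebra.Homology.ShortComplex.ModuleCat
import Mathlib.Algebra.Homology.Linear

/-!
Computing the functor `Ext` on morphisms through projective resolutions.
-/

set_option autoImplicit false

open CategoryTheory Limits Opposite HomologicalComplex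

noncomputable section

namespace Pool.Agent.Lib.LocalCoh

universe u

variable {A : Type u} [CommRing A]

/-- The complex `Hom(P, M)`. -/
abbrev K (P : ChainComplex (ModuleCat.{u} A) ℕ) (M : ModuleCat.{u} A) :
    CochainComplex (ModuleCat.{u} A) ℕ := P.linearYonedaObj A M

/-- Functoriality of `Hom(P, M)` in both variables. -/
def Kmap {P Q : ChainComplex (ModuleCat.{u} A) ℕ} {M N : ModuleCat.{u} A}
    (φ : Q ⟶ P) (g : M ⟶ N) : K P M ⟶ K Q N where
  f i := ModuleCat.ofHom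
    ((Linear.leftComp A N (φ.f i)).comp (Linear.rightComp A (P.X i) g))
  comm' i j _ := by
    ext (z : P.X i ⟶ M)
    change Q.d j i ≫ (φ.f i ≫ (z ≫ g)) = φ.f j ≫ ((P.d j i ≫ z) ≫ g)
    simp only [Category.assoc, Hom.comm_assoc]

lemma Kmap_apply {P Q : ChainComplex (ModuleCat.{u} A) ℕ} {M N : ModuleCat.{u} A}
    (φ : Q ⟶ P) (g : M ⟶ N) (i : ℕ) (z : P.X i ⟶ M) :
    ((Kmap φ g).f i).hom z = (φ.f i ≫ z ≫ g : Q.X i ⟶ N) := rfl

lemma Kd_apply (P : ChainComplex (ModuleCat.{u} A) ℕ) (M : ModuleCat.{u} A) (i j : ℕ)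
    (z : P.X i ⟶ M) : ((K P M).d i j).hom z = (P.d j i ≫ z : P.X j ⟶ M) := rfl

lemma Kmap_comp {P Q T : ChainComplex (ModuleCat.{u} A) ℕ} {M N L : ModuleCat.{u} A}
    (φ : Q ⟶ P) (ψ : T ⟶ Q) (g : M ⟶ N) (h : N ⟶ L) :
    Kmap φ g ≫ Kmap ψ h = Kmap (ψ ≫ φ) (g ≫ h) := by
  ext i (z : P.X i ⟶ M)
  change ψ.f i ≫ (φ.f i ≫ z ≫ g) ≫ h = (ψ ≫ φ).f i ≫ z ≫ g ≫ h
  simp

lemma Kmap_id (P : ChainComplex (ModuleCat.{u} A) ℕ) (M : ModuleCat.{u} A) :
    Kmap (𝟙 P) (𝟙 M) = 𝟙 _ := by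
  ext i (z : P.X i ⟶ M)
  change (𝟙 P : P ⟶ P).f i ≫ z ≫ 𝟙 M = z
  simp

lemma Kmap_add {P Q : ChainComplex (ModuleCat.{u} A) ℕ} {M N : ModuleCat.{u} A}
    (φ : Q ⟶ P) (g h : M ⟶ N) : Kmap φ (g + h) = Kmap φ g + Kmap φ h := by
  ext i (z : P.X i ⟶ M)
  change φ.f i ≫ z ≫ (g + h) = φ.f i ≫ z ≫ g + φ.f i ≫ z ≫ h
  simp

lemma Kmap_smul {P Q : ChainComplex (ModuleCat.{u} A) ℕ} {M N : ModuleCat.{u} A}
    (φ : Q ⟶ P) (a : A) (g : M ⟶ N) : Kmap φ (a • g) = a • Kmap φ g := by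
  ext i (z : P.X i ⟶ M)
  change φ.f i ≫ z ≫ (a • g) = a • (φ.f i ≫ z ≫ g)
  simp

lemma Kmap_smul_left {P Q : ChainComplex (ModuleCat.{u} A) ℕ} {M N : ModuleCat.{u} A}
    (φ : Q ⟶ P) (a : A) (g : M ⟶ N) : Kmap (a • φ) g = a • Kmap φ g := by
  ext i (z : P.X i ⟶ M)
  change (a • φ).f i ≫ z ≫ g = a • (φ.f i ≫ z ≫ g)
  simp

lemma Kmap_zero_left {P Q : ChainComplex (ModuleCat.{u} A) ℕ} {M N : ModuleCat.{u} A}
    (g : M ⟶ N) : Kmap (0 : Q ⟶ P) g = 0 := by
  ext i (z : P.X i ⟶ M)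
  change (0 : Q ⟶ P).f i ≫ z ≫ g = 0
  simp

lemma Kmap_zero {P Q : ChainComplex (ModuleCat.{u} A) ℕ} {M N : ModuleCat.{u} A}
    (φ : Q ⟶ P) : Kmap φ (0 : M ⟶ N) = 0 := by
  ext i (z : P.X i ⟶ M)
  change φ.f i ≫ z ≫ (0 : M ⟶ N) = 0
  simp

lemma homologyMap_smul' {X Y : CochainComplex (ModuleCat.{u} A) ℕ} (a : A) (φ : X ⟶ Y) (i : ℕ) :
    homologyMap (a • φ) i = a • homologyMap φ i := by
  rw [← cancel_epi (X.homologyπ i), Linear.comp_smul, homologyπ_naturality, homologyπ_naturality,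
    ← Linear.smul_comp]
  congr 1
  rw [← cancel_mono (Y.iCycles i), Linear.smul_comp, cyclesMap_i, cyclesMap_i, ← Linear.comp_smul]
  rfl

lemma homologyUnop_nat {V : Type*} [Category V] [Abelian V] {ι : Type*} {c : ComplexShape ι}
    {X Y : HomologicalComplex Vᵒᵖ c} (α : X ⟶ Y) (i : ι) :
    homologyMap ((unopFunctor V c).map α.op) i ≫ (X.homologyUnop i).hom =
      (Y.homologyUnop i).hom ≫ (homologyMap α i).unop := by
  have h := homologyOp_hom_naturality ((unopFunctor V c).map α.op) i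
  have h2 := congrArg Quiver.Hom.unop h
  simp only [unop_comp] at h2
  exact h2.symm

lemma isoExt_nat_left {X Y : ModuleCat.{u} A} (f : Y ⟶ X) (P : ProjectiveResolution X)
    (Q : ProjectiveResolution Y) (φ : Q.complex ⟶ P.complex)
    (comm : φ.f 0 ≫ P.π.f 0 = Q.π.f 0 ≫ f) (M : ModuleCat.{u} A) (i : ℕ) :
    ((Ext A (ModuleCat.{u} A) i).map f.op).app M ≫ (Q.isoExt i M).hom =
      (P.isoExt i M).hom ≫ homologyMap (Kmap φ (𝟙 M)) i := by
  have h := ProjectiveResolution.isoLeftDerivedObj_inv_naturality f Q P φ comm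
    ((linearYoneda A (ModuleCat.{u} A)).obj M).rightOp i
  have h2 := congrArg Quiver.Hom.unop h
  have h3 := homologyUnop_nat
    ((((linearYoneda A (ModuleCat.{u} A)).obj M).rightOp.mapHomologicalComplex _).map φ) i
  have h4 : (unopFunctor _ _).map
      ((((linearYoneda A (ModuleCat.{u} A)).obj M).rightOp.mapHomologicalComplex _).map φ).op =
      Kmap φ (𝟙 M) := by
    ext i (z : P.complex.X i ⟶ M)
    change φ.f i ≫ z = φ.f i ≫ z ≫ 𝟙 M
    simp
  rw [h4] at h3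
  simp only [unop_comp] at h2
  change (((linearYoneda A (ModuleCat.{u} A)).obj M).rightOp.leftDerived i |>.map f).unop ≫
    ((Q.isoLeftDerivedObj ((linearYoneda A (ModuleCat.{u} A)).obj M).rightOp i).inv.unop ≫
      (HomologicalComplex.homologyUnop _ i).inv) =
    ((P.isoLeftDerivedObj ((linearYoneda A (ModuleCat.{u} A)).obj M).rightOp i).inv.unop ≫
      (HomologicalComplex.homologyUnop _ i).inv) ≫ _
  rw [← Category.assoc, h2, Category.assoc, Category.assoc]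
  congr 1
  rw [Iso.eq_inv_comp, ← Category.assoc, Iso.comp_inv_eq]
  exact h3.symm

lemma isoExt_nat_right {X : ModuleCat.{u} A} (P : ProjectiveResolution X)
    {M N : ModuleCat.{u} A} (g : M ⟶ N) (i : ℕ) :
    ((Ext A (ModuleCat.{u} A) i).obj (op X)).map g ≫ (P.isoExt i N).hom =
      (P.isoExt i M).hom ≫ homologyMap (Kmap (𝟙 P.complex) g) i := by
  have h := ProjectiveResolution.leftDerived_app_eq
    (((linearYoneda A (ModuleCat.{u} A)).map g).rightOp) P i
  have h2 := congrArg Quiver.Hom.unop h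
  have h3 := homologyUnop_nat
    ((NatTrans.mapHomologicalComplex (((linearYoneda A (ModuleCat.{u} A)).map g).rightOp)
      (ComplexShape.down ℕ)).app P.complex) i
  have h4 : (unopFunctor _ _).map
      ((NatTrans.mapHomologicalComplex (((linearYoneda A (ModuleCat.{u} A)).map g).rightOp)
      (ComplexShape.down ℕ)).app P.complex).op = Kmap (𝟙 P.complex) g := by
    ext i (z : P.complex.X i ⟶ M)
    change z ≫ g = (𝟙 P.complex : _ ⟶ _).f i ≫ z ≫ g
    simp
  rw [h4] at h3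
  simp only [unop_comp] at h2
  change ((NatTrans.leftDerived (((linearYoneda A (ModuleCat.{u} A)).map g).rightOp) i).app X).unop ≫
    ((P.isoLeftDerivedObj ((linearYoneda A (ModuleCat.{u} A)).obj N).rightOp i).inv.unop ≫
      (HomologicalComplex.homologyUnop _ i).inv) =
    ((P.isoLeftDerivedObj ((linearYoneda A (ModuleCat.{u} A)).obj M).rightOp i).inv.unop ≫
      (HomologicalComplex.homologyUnop _ i).inv) ≫ _
  rw [h2]
  simp only [Category.assoc]
  congr 1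
  have h5 : (P.isoLeftDerivedObj ((linearYoneda A (ModuleCat.{u} A)).obj N).rightOp i).hom.unop ≫
      (P.isoLeftDerivedObj ((linearYoneda A (ModuleCat.{u} A)).obj N).rightOp i).inv.unop = 𝟙 _ := by
    rw [← unop_comp, Iso.inv_hom_id, unop_id]
  rw [reassoc_of% h5]
  rw [Iso.eq_inv_comp, ← Category.assoc, Iso.comp_inv_eq]
  exact h3.symm

end Pool.Agent.Lib.LocalCoh
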