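import Pool.Agent.Lib.LocalCoh.ExtBasic
import Mathlib.Algebra.Category.ModuleCat.FilteredColimits
import Mathlib.CategoryTheory.Limits.ConcreteCategory.Basic
import Mathlib.CategoryTheory.Limits.FunctorCategory.Basic

/-!
The long exact sequence of local cohomology.
-/

set_option autoImplicit false

open CategoryTheory Limits Opposite HomologicalComplex localCohomology

noncomputable section

namespace Pool.Agent.Lib.LocalCoh

variable {A : Type} [CommRing A] (J : Ideal A)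

/-- The quotient `A / J ^ t`. -/
abbrev Qt (j : ℕᵒᵖᵒᵖ) : ModuleCat.{0} A := (ringModIdeals (idealPowersDiagram J)).obj j.unop

/-- The projection `A / J ^ s → A / J ^ t`. -/
abbrev qm {j k : ℕᵒᵖᵒᵖ} (w : j ⟶ k) : Qt J k ⟶ Qt J j :=
  (ringModIdeals (idealPowersDiagram J)).map w.unop

/-- A projective resolution of `A / J ^ t`. -/
def Pr (j : ℕᵒᵖᵒᵖ) : ProjectiveResolution (Qt J j) := projectiveResolution _

/-- The transition chain map. -/
def tr {j k : ℕᵒᵖᵒᵖ} (w : j ⟶ k) : (Pr J k).complex ⟶ (Pr J j).complex :=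
  ProjectiveResolution.lift (qm J w) _ _

lemma tr_comm {j k : ℕᵒᵖᵒᵖ} (w : j ⟶ k) :
    (tr J w).f 0 ≫ (Pr J j).π.f 0 = (Pr J k).π.f 0 ≫ qm J w :=
  ProjectiveResolution.lift_commutes_zero _ _ _

/-- The diagram of `Ext` modules with fixed second variable. -/
abbrev dg (i : ℕ) (M : ModuleCat.{0} A) : ℕᵒᵖᵒᵖ ⥤ ModuleCat.{0} A :=
  diagram (idealPowersDiagram J) i ⋙ (evaluation _ _).obj M

/-- The colimit cocone. -/
def cc (i : ℕ) (M : ModuleCat.{0} A) : Cocone (dg J i M) :=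
  ((evaluation _ _).obj M).mapCocone (colimit.cocone (diagram (idealPowersDiagram J) i))

/-- The cocone is a colimit. -/
def ccIs (i : ℕ) (M : ModuleCat.{0} A) : IsColimit (cc J i M) :=
  isColimitOfPreserves _ (colimit.isColimit _)

/-- Cohomology of `Hom(P, M)` at a given level. -/
abbrev E (j : ℕᵒᵖᵒᵖ) (i : ℕ) (M : ModuleCat.{0} A) : ModuleCat.{0} A :=
  (K (Pr J j).complex M).homology i

/-- The comparison isomorphism. -/
def eIso (j : ℕᵒᵖᵒᵖ) (i : ℕ) (M : ModuleCat.{0} A) : (dg J i M).obj j ≅ E J j i M :=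
  (Pr J j).isoExt i M

/-- The structure map to local cohomology. -/
def io (j : ℕᵒᵖᵒᵖ) (i : ℕ) (M : ModuleCat.{0} A) :
    E J j i M ⟶ (localCohomology J i).obj M :=
  (eIso J j i M).inv ≫ (cc J i M).ι.app j

/-- Functoriality in the module. -/
abbrev Emap (j : ℕᵒᵖᵒᵖ) (i : ℕ) {M N : ModuleCat.{0} A} (g : M ⟶ N) : E J j i M ⟶ E J j i N :=
  homologyMap (Kmap (𝟙 _) g) i

/-- Transition maps. -/
abbrev Etr {j k : ℕᵒᵖᵒᵖ} (w : j ⟶ k) (i : ℕ) (M : ModuleCat.{0} A) : E J j i M ⟶ E J k i M :=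
  homologyMap (Kmap (tr J w) (𝟙 M)) i

lemma dg_map {j k : ℕᵒᵖᵒᵖ} (w : j ⟶ k) (i : ℕ) (M : ModuleCat.{0} A) :
    (dg J i M).map w ≫ (eIso J k i M).hom = (eIso J j i M).hom ≫ Etr J w i M :=
  isoExt_nat_left (qm J w) (Pr J j) (Pr J k) (tr J w) (tr_comm J w) M i

lemma io_map (j : ℕᵒᵖᵒᵖ) (i : ℕ) {M N : ModuleCat.{0} A} (g : M ⟶ N) :
    io J j i M ≫ (localCohomology J i).map g = Emap J j i g ≫ io J j i N := by
  have h1 := isoExt_nat_right (Pr J j) g i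
  have h2 := (colimit.ι (diagram (idealPowersDiagram J) i) j).naturality g
  unfold io
  rw [Category.assoc, Iso.inv_comp_eq]
  refine h2.symm.trans ?_
  rw [← Category.assoc, ← Category.assoc]
  congr 1
  rw [Iso.eq_comp_inv]
  exact h1

lemma Etr_io {j k : ℕᵒᵖᵒᵖ} (w : j ⟶ k) (i : ℕ) (M : ModuleCat.{0} A) :
    Etr J w i M ≫ io J k i M = io J j i M := by
  unfold io
  rw [Iso.eq_inv_comp, ← Category.assoc, ← dg_map, Category.assoc, Iso.hom_inv_id_assoc]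
  exact (cc J i M).w w

lemma Etr_Emap {j k : ℕᵒᵖᵒᵖ} (w : j ⟶ k) (i : ℕ) {M N : ModuleCat.{0} A} (g : M ⟶ N) :
    Etr J w i M ≫ Emap J k i g = Emap J j i g ≫ Etr J w i N := by
  rw [← homologyMap_comp, ← homologyMap_comp, Kmap_comp, Kmap_comp]
  simp

lemma io_surj (i : ℕ) (M : ModuleCat.{0} A) (x : (localCohomology J i).obj M) :
    ∃ (j : ℕᵒᵖᵒᵖ) (y : E J j i M), (io J j i M).hom y = x := by
  obtain ⟨j, y, h⟩ := Concrete.isColimit_exists_rep (dg J i M) (ccIs J i M) x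
  refine ⟨j, (eIso J j i M).hom.hom y, ?_⟩
  rw [← h]
  change ((eIso J j i M).hom ≫ io J j i M).hom y = _
  unfold io
  rw [Iso.hom_inv_id_assoc]
  rfl

lemma io_zero (j : ℕᵒᵖᵒᵖ) (i : ℕ) (M : ModuleCat.{0} A) (y : E J j i M)
    (h : (io J j i M).hom y = 0) : ∃ (k : ℕᵒᵖᵒᵖ) (w : j ⟶ k), (Etr J w i M).hom y = 0 := by
  have h0 : (cc J i M).ι.app j ((eIso J j i M).inv.hom y) = (cc J i M).ι.app j 0 := by
    rw [map_zero]
    exact h
  obtain ⟨k, f, g, hfg⟩ := Concrete.isColimit_exists_of_rep_eq (dg J i M) (ccIs J i M) _ _ h0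
  refine ⟨k, f, ?_⟩
  rw [map_zero] at hfg
  have h1 : Etr J f i M = (eIso J j i M).inv ≫ (dg J i M).map f ≫ (eIso J k i M).hom := by
    rw [dg_map, Iso.inv_hom_id_assoc]
  rw [h1]
  change (eIso J k i M).hom.hom (((dg J i M).map f).hom ((eIso J j i M).inv.hom y)) = 0
  have h2 : ((dg J i M).map f).hom ((eIso J j i M).inv.hom y) = 0 := hfg
  rw [h2, map_zero]

/-- The short complex of complexes `Hom(P, S)`. -/
def KS (P : ChainComplex (ModuleCat.{0} A) ℕ) (S : ShortComplex (ModuleCat.{0} A)) :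
    ShortComplex (CochainComplex (ModuleCat.{0} A) ℕ) :=
  ShortComplex.mk (Kmap (𝟙 P) S.f) (Kmap (𝟙 P) S.g) (by
    rw [Kmap_comp, S.zero, Kmap_zero])

lemma KS_shortExact (P : ChainComplex (ModuleCat.{0} A) ℕ) (hP : ∀ n, Projective (P.X n))
    {S : ShortComplex (ModuleCat.{0} A)} (hS : S.ShortExact) : (KS P S).ShortExact := by
  apply shortExact_of_degreewise_shortExact
  intro n
  have := hS.mono_f
  have := hS.epi_g
  have := hP n
  refine ShortComplex.ShortExact.mk' ?_ ?_ ?_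
  · rw [ShortComplex.moduleCat_exact_iff]
    intro (z : P.X n ⟶ S.X₂) hz
    have hz' : (𝟙 P : P ⟶ P).f n ≫ z ≫ S.g = 0 := hz
    simp only [id_f, Category.id_comp] at hz'
    refine ⟨hS.exact.lift z hz', ?_⟩
    change (𝟙 P : P ⟶ P).f n ≫ hS.exact.lift z hz' ≫ S.f = z
    simp
  · rw [ModuleCat.mono_iff_injective]
    intro (z : P.X n ⟶ S.X₁) (z' : P.X n ⟶ S.X₁) hz
    have hz' : (𝟙 P : P ⟶ P).f n ≫ z ≫ S.f = (𝟙 P : P ⟶ P).f n ≫ z' ≫ S.f := hz
    simp only [id_f, Category.id_comp] at hz'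
    exact (cancel_mono S.f).1 hz'
  · rw [ModuleCat.epi_iff_surjective]
    intro (z : P.X n ⟶ S.X₃)
    refine ⟨Projective.factorThru z S.g, ?_⟩
    change (𝟙 P : P ⟶ P).f n ≫ Projective.factorThru z S.g ≫ S.g = z
    simp

/-- Functoriality of `KS`. -/
def KSmap {P Q : ChainComplex (ModuleCat.{0} A) ℕ} (φ : Q ⟶ P)
    {S T : ShortComplex (ModuleCat.{0} A)} (τ : S ⟶ T) : KS P S ⟶ KS Q T where
  τ₁ := Kmap φ τ.τ₁
  τ₂ := Kmap φ τ.τ₂
  τ₃ := Kmap φ τ.τ₃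
  comm₁₂ := by
    change Kmap φ τ.τ₁ ≫ Kmap (𝟙 Q) T.f = Kmap (𝟙 P) S.f ≫ Kmap φ τ.τ₂
    rw [Kmap_comp, Kmap_comp, τ.comm₁₂]
    simp
  comm₂₃ := by
    change Kmap φ τ.τ₂ ≫ Kmap (𝟙 Q) T.g = Kmap (𝟙 P) S.g ≫ Kmap φ τ.τ₃
    rw [Kmap_comp, Kmap_comp, τ.comm₂₃]
    simp

section

variable {S : ShortComplex (ModuleCat.{0} A)} (hS : S.ShortExact)

include hS in
lemma KSe (j : ℕᵒᵖᵒᵖ) : (KS (Pr J j).complex S).ShortExact :=
  KS_shortExact _ (Pr J j).projective hS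

/-- The connecting map at a given level. -/
def Eδ (j : ℕᵒᵖᵒᵖ) (i : ℕ) : E J j i S.X₃ ⟶ E J j (i + 1) S.X₁ :=
  (KSe J hS j).δ i (i + 1) rfl

lemma Eδ_tr {j k : ℕᵒᵖᵒᵖ} (w : j ⟶ k) (i : ℕ) :
    Eδ J hS j i ≫ Etr J w (i + 1) S.X₁ = Etr J w i S.X₃ ≫ Eδ J hS k i :=
  HomologySequence.δ_naturality (KSmap (tr J w) (𝟙 S)) (KSe J hS j) (KSe J hS k) i (i + 1) rfl

lemma Eδ_map {T : ShortComplex (ModuleCat.{0} A)} (hT : T.ShortExact) (τ : S ⟶ T)
    (j : ℕᵒᵖᵒᵖ) (i : ℕ) :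
    Eδ J hS j i ≫ Emap J j (i + 1) τ.τ₁ = Emap J j i τ.τ₃ ≫ Eδ J hT j i :=
  HomologySequence.δ_naturality (KSmap (𝟙 _) τ) (KSe J hS j) (KSe J hT j) i (i + 1) rfl

/-- The connecting map of local cohomology. -/
def δ (i : ℕ) : (localCohomology J i).obj S.X₃ ⟶ (localCohomology J (i + 1)).obj S.X₁ :=
  (ccIs J i S.X₃).desc (Cocone.mk _
    { app := fun j => (eIso J j i S.X₃).hom ≫ Eδ J hS j i ≫ io J j (i + 1) S.X₁
      naturality := fun j k w => by
        rw [← Category.assoc, dg_map, Category.assoc, ← Category.assoc (Etr J w i S.X₃),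
          ← Eδ_tr, Category.assoc, Etr_io]
        simp })

lemma io_δ (j : ℕᵒᵖᵒᵖ) (i : ℕ) :
    io J j i S.X₃ ≫ δ J hS i = Eδ J hS j i ≫ io J j (i + 1) S.X₁ := by
  have h : (cc J i S.X₃).ι.app j ≫ δ J hS i =
      (eIso J j i S.X₃).hom ≫ Eδ J hS j i ≫ io J j (i + 1) S.X₁ := (ccIs J i S.X₃).fac _ j
  change ((eIso J j i S.X₃).inv ≫ (cc J i S.X₃).ι.app j) ≫ δ J hS i = _
  rw [Category.assoc, Iso.inv_comp_eq]
  exact h

lemma δ_nat {T : ShortComplex (ModuleCat.{0} A)} (hT : T.ShortExact) (τ : S ⟶ T) (i : ℕ)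
    (x : (localCohomology J i).obj S.X₃) :
    ((localCohomology J (i + 1)).map τ.τ₁).hom ((δ J hS i).hom x) =
      (δ J hT i).hom (((localCohomology J i).map τ.τ₃).hom x) := by
  obtain ⟨j, y, rfl⟩ := io_surj J i _ x
  change (io J j i S.X₃ ≫ δ J hS i ≫ (localCohomology J (i + 1)).map τ.τ₁).hom y =
    (io J j i S.X₃ ≫ (localCohomology J i).map τ.τ₃ ≫ δ J hT i).hom y
  rw [← Category.assoc, io_δ, Category.assoc, io_map, ← Category.assoc, Eδ_map J hS hT,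
    ← Category.assoc (io J j i S.X₃), io_map, Category.assoc, Category.assoc, io_δ]

end

/-- Exactness passes to the colimit. -/
lemma exact_colim {i₁ i₂ i₃ : ℕ} {M₁ M₂ M₃ : ModuleCat.{0} A}
    (α : ∀ j, E J j i₁ M₁ ⟶ E J j i₂ M₂) (β : ∀ j, E J j i₂ M₂ ⟶ E J j i₃ M₃)
    (a : (localCohomology J i₁).obj M₁ ⟶ (localCohomology J i₂).obj M₂)
    (b : (localCohomology J i₂).obj M₂ ⟶ (localCohomology J i₃).obj M₃)
    (ha : ∀ j, io J j i₁ M₁ ≫ a = α j ≫ io J j i₂ M₂)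
    (hb : ∀ j, io J j i₂ M₂ ≫ b = β j ≫ io J j i₃ M₃)
    (hβ : ∀ j k (w : j ⟶ k), β j ≫ Etr J w i₃ M₃ = Etr J w i₂ M₂ ≫ β k)
    (hex : ∀ j y, (β j).hom y = 0 → ∃ z, (α j).hom z = y)
    (x : (localCohomology J i₂).obj M₂) (hx : b.hom x = 0) : ∃ z, a.hom z = x := by
  obtain ⟨j, y, rfl⟩ := io_surj J i₂ _ x
  have h1 : (io J j i₃ M₃).hom ((β j).hom y) = 0 := by
    rw [← hx]
    change (β j ≫ io J j i₃ M₃).hom y = (io J j i₂ M₂ ≫ b).hom y
    rw [hb]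
  obtain ⟨k, w, hw⟩ := io_zero J j i₃ M₃ _ h1
  have h2 : (β k).hom ((Etr J w i₂ M₂).hom y) = 0 := by
    rw [← hw]
    change (Etr J w i₂ M₂ ≫ β k).hom y = (β j ≫ Etr J w i₃ M₃).hom y
    rw [hβ]
  obtain ⟨z, hz⟩ := hex k _ h2
  refine ⟨(io J k i₁ M₁).hom z, ?_⟩
  change (io J k i₁ M₁ ≫ a).hom z = _
  rw [ha, ← Etr_io J w i₂ M₂]
  change (io J k i₂ M₂).hom ((α k).hom z) = (io J k i₂ M₂).hom ((Etr J w i₂ M₂).hom y)
  rw [hz]

section

variable {S : ShortComplex (ModuleCat.{0} A)} (hS : S.ShortExact)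

include hS in
lemma exact₂ (i : ℕ) (x : (localCohomology J i).obj S.X₂)
    (hx : ((localCohomology J i).map S.g).hom x = 0) :
    ∃ z, ((localCohomology J i).map S.f).hom z = x :=
  exact_colim J (fun j => Emap J j i S.f) (fun j => Emap J j i S.g) _ _
    (fun j => io_map J j i S.f) (fun j => io_map J j i S.g)
    (fun _ _ w => (Etr_Emap J w i S.g).symm)
    (fun j => (ShortComplex.moduleCat_exact_iff _).1 ((KSe J hS j).homology_exact₂ i)) x hx

lemma exact₃ (i : ℕ) (x : (localCohomology J i).obj S.X₃) (hx : (δ J hS i).hom x = 0) :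
    ∃ z, ((localCohomology J i).map S.g).hom z = x :=
  exact_colim J (fun j => Emap J j i S.g) (fun j => Eδ J hS j i) _ _
    (fun j => io_map J j i S.g) (fun j => io_δ J hS j i)
    (fun _ _ w => Eδ_tr J hS w i)
    (fun j => (ShortComplex.moduleCat_exact_iff _).1
      ((KSe J hS j).homology_exact₃ i (i + 1) rfl)) x hx

lemma exact₁ (i : ℕ) (x : (localCohomology J (i + 1)).obj S.X₁)
    (hx : ((localCohomology J (i + 1)).map S.f).hom x = 0) :
    ∃ z, (δ J hS i).hom z = x :=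
  exact_colim J (fun j => Eδ J hS j i) (fun j => Emap J j (i + 1) S.f) _ _
    (fun j => io_δ J hS j i) (fun j => io_map J j (i + 1) S.f)
    (fun _ _ w => (Etr_Emap J w (i + 1) S.f).symm)
    (fun j => (ShortComplex.moduleCat_exact_iff _).1
      ((KSe J hS j).homology_exact₁ i (i + 1) rfl)) x hx

lemma δ_comp (i : ℕ) (x : (localCohomology J i).obj S.X₃) :
    ((localCohomology J (i + 1)).map S.f).hom ((δ J hS i).hom x) = 0 := by
  obtain ⟨j, y, rfl⟩ := io_surj J i _ x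
  change (io J j i S.X₃ ≫ δ J hS i ≫ (localCohomology J (i + 1)).map S.f).hom y = 0
  have h : Eδ J hS j i ≫ Emap J j (i + 1) S.f = 0 := (KSe J hS j).δ_comp i (i + 1) rfl
  rw [← Category.assoc, io_δ, Category.assoc, io_map, ← Category.assoc, h, zero_comp]
  rfl

lemma comp_δ (i : ℕ) (x : (localCohomology J i).obj S.X₂) :
    (δ J hS i).hom (((localCohomology J i).map S.g).hom x) = 0 := by
  obtain ⟨j, y, rfl⟩ := io_surj J i _ x
  change (io J j i S.X₂ ≫ (localCohomology J i).map S.g ≫ δ J hS i).hom y = 0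
  have h : Emap J j i S.g ≫ Eδ J hS j i = 0 := (KSe J hS j).comp_δ i (i + 1) rfl
  rw [← Category.assoc, io_map, Category.assoc, io_δ, ← Category.assoc, h, zero_comp]
  rfl

end

end Pool.Agent.Lib.LocalCoh
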