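import Pool.Agent.Lib.LocalCoh.LES
import Mathlib.Algebra.Category.ModuleCat.EnoughInjectives
import Mathlib.Algebra.Category.ModuleCat.Injective
import Mathlib.RingTheory.Filtration

/-!
Basic properties of local cohomology: linearity, torsion, degree zero, vanishing on injective
and on torsion modules.
-/

set_option autoImplicit false

open CategoryTheory Limits Opposite HomologicalComplex localCohomology

noncomputable section

namespace Pool.Agent.Lib.LocalCoh

variable {A : Type} [CommRing A] (J : Ideal A)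

lemma Hmap_comp (i : ℕ) {M N L : ModuleCat.{0} A} (g : M ⟶ N) (h : N ⟶ L)
    (x : (localCohomology J i).obj M) :
    ((localCohomology J i).map (g ≫ h)).hom x =
      ((localCohomology J i).map h).hom (((localCohomology J i).map g).hom x) := by
  rw [Functor.map_comp]
  rfl

lemma Hmap_id (i : ℕ) (M : ModuleCat.{0} A) (x : (localCohomology J i).obj M) :
    ((localCohomology J i).map (𝟙 M)).hom x = x := by
  rw [CategoryTheory.Functor.map_id]
  rfl

lemma io_map_apply (j : ℕᵒᵖᵒᵖ) (i : ℕ) {M N : ModuleCat.{0} A} (g : M ⟶ N) (y : E J j i M) :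
    ((localCohomology J i).map g).hom ((io J j i M).hom y) =
      (io J j i N).hom ((Emap J j i g).hom y) := by
  change (io J j i M ≫ (localCohomology J i).map g).hom y = _
  rw [io_map]
  rfl

lemma Hmap_add (i : ℕ) {M N : ModuleCat.{0} A} (g h : M ⟶ N) (x : (localCohomology J i).obj M) :
    ((localCohomology J i).map (g + h)).hom x =
      ((localCohomology J i).map g).hom x + ((localCohomology J i).map h).hom x := by
  obtain ⟨j, y, rfl⟩ := io_surj J i _ x
  rw [io_map_apply, io_map_apply, io_map_apply, ← map_add]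
  congr 1
  unfold Emap
  rw [Kmap_add, homologyMap_add]
  rfl

lemma Hmap_smul (i : ℕ) {M N : ModuleCat.{0} A} (a : A) (g : M ⟶ N)
    (x : (localCohomology J i).obj M) :
    ((localCohomology J i).map (a • g)).hom x = a • ((localCohomology J i).map g).hom x := by
  obtain ⟨j, y, rfl⟩ := io_surj J i _ x
  rw [io_map_apply, io_map_apply, ← map_smul]
  congr 1
  unfold Emap
  rw [Kmap_smul, homologyMap_smul']
  rfl

lemma Hmap_zero (i : ℕ) {M N : ModuleCat.{0} A} (x : (localCohomology J i).obj M) :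
    ((localCohomology J i).map (0 : M ⟶ N)).hom x = 0 := by
  have h := Hmap_smul J i (0 : A) (0 : M ⟶ N) x
  rwa [zero_smul, zero_smul] at h

/-- A module is `J`-power torsion. -/
def IsTors (M : Type) [AddCommGroup M] [Module A M] : Prop :=
  ∀ m : M, ∃ t : ℕ, ∀ r ∈ J ^ t, r • m = 0

lemma E_tors (j : ℕᵒᵖᵒᵖ) (i : ℕ) (M : ModuleCat.{0} A) (y : E J j i M) (r : A)
    (hr : r ∈ J ^ j.unop.unop) : r • y = 0 := by
  have h0 : r • 𝟙 (Qt J j) = 0 := by
    ext x
    obtain ⟨x, rfl⟩ := Ideal.Quotient.mk_surjective x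
    change r • Ideal.Quotient.mk (J ^ j.unop.unop) x = 0
    rw [← Ideal.Quotient.mk_eq_mk, ← Submodule.Quotient.mk_smul, Submodule.Quotient.mk_eq_zero]
    exact Ideal.mul_mem_right _ _ hr
  have h1 := isoExt_nat_left (0 : Qt J j ⟶ Qt J j) (Pr J j) (Pr J j) (r • 𝟙 _) (by
    rw [← h0]
    simp) M i
  have h2 := isoExt_nat_left (0 : Qt J j ⟶ Qt J j) (Pr J j) (Pr J j) 0 (by simp) M i
  rw [h2, cancel_epi, Kmap_zero_left, Kmap_smul_left, Kmap_id, homologyMap_smul',
    homologyMap_zero, homologyMap_id] at h1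
  have h3 := congrArg (fun φ => φ.hom y) h1
  exact h3.symm

lemma H_tors (i : ℕ) (M : ModuleCat.{0} A) : IsTors J ((localCohomology J i).obj M) := by
  intro x
  obtain ⟨j, y, rfl⟩ := io_surj J i _ x
  refine ⟨j.unop.unop, fun r hr => ?_⟩
  rw [← map_smul, E_tors J j i M y r hr, map_zero]

/-- Local cohomology vanishes. -/
def Van (i : ℕ) (M : ModuleCat.{0} A) : Prop := ∀ x : (localCohomology J i).obj M, x = 0

lemma van_injective (i : ℕ) (M : ModuleCat.{0} A) [Injective M] : Van J (i + 1) M := by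
  intro x
  obtain ⟨j, y, rfl⟩ := io_surj J _ _ x
  have h : IsZero (E J j (i + 1) M) := by
    rw [← exactAt_iff_isZero_homology, exactAt_iff' _ i (i + 1) (i + 2) (by simp) (by simp),
      ShortComplex.moduleCat_exact_iff]
    intro (z : (Pr J j).complex.X (i + 1) ⟶ M) hz
    have hz' : (Pr J j).complex.d (i + 2) (i + 1) ≫ z = 0 := hz
    exact ⟨((Pr J j).exact_succ i).descToInjective z hz',
      ((Pr J j).exact_succ i).comp_descToInjective z hz'⟩
  have : Subsingleton (E J j (i + 1) M) := ModuleCat.subsingleton_of_isZero h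
  rw [Subsingleton.elim y 0, map_zero]

/-- Precomposition with the augmentation. -/
def aug (j : ℕᵒᵖᵒᵖ) (M : ModuleCat.{0} A) :
    ModuleCat.of A (Qt J j ⟶ M) ⟶ (K (Pr J j).complex M).X 0 :=
  ModuleCat.ofHom (Linear.leftComp A M ((Pr J j).π.f 0))

lemma aug_d (j : ℕᵒᵖᵒᵖ) (M : ModuleCat.{0} A) :
    aug J j M ≫ (K (Pr J j).complex M).d 0 1 = 0 := by
  ext (g : Qt J j ⟶ M)
  change (Pr J j).complex.d 1 0 ≫ (Pr J j).π.f 0 ≫ g = 0
  rw [← Category.assoc, ProjectiveResolution.complex_d_comp_π_f_zero, zero_comp]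

/-- The comparison of `Hom` with cohomology in degree zero. -/
def θ (j : ℕᵒᵖᵒᵖ) (M : ModuleCat.{0} A) : ModuleCat.of A (Qt J j ⟶ M) ⟶ E J j 0 M :=
  (K (Pr J j).complex M).liftCycles (aug J j M) 1 (by simp) (aug_d J j M) ≫
    (K (Pr J j).complex M).homologyπ 0

lemma θ_nat {j k : ℕᵒᵖᵒᵖ} (φ : (Pr J k).complex ⟶ (Pr J j).complex) (p : Qt J k ⟶ Qt J j)
    (hφ : φ.f 0 ≫ (Pr J j).π.f 0 = (Pr J k).π.f 0 ≫ p) {M N : ModuleCat.{0} A} (h : M ⟶ N)
    (g : Qt J j ⟶ M) :
    (homologyMap (Kmap φ h) 0).hom ((θ J j M).hom g) = (θ J k N).hom (p ≫ g ≫ h) := by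
  have h1 : θ J j M ≫ homologyMap (Kmap φ h) 0 =
      ModuleCat.ofHom ((Linear.leftComp A N p).comp (Linear.rightComp A (Qt J j) h)) ≫
        θ J k N := by
    unfold θ
    rw [Category.assoc, homologyπ_naturality, ← Category.assoc, ← Category.assoc]
    congr 1
    rw [← cancel_mono (iCycles _ 0), Category.assoc, Category.assoc, cyclesMap_i, liftCycles_i,
      liftCycles_i_assoc]
    ext (g : Qt J j ⟶ M)
    change φ.f 0 ≫ ((Pr J j).π.f 0 ≫ g) ≫ h = (Pr J k).π.f 0 ≫ p ≫ g ≫ h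
    rw [← Category.assoc, ← Category.assoc, hφ]
    simp
  exact congrArg (fun ψ => ψ.hom g) h1

lemma θ_inj (j : ℕᵒᵖᵒᵖ) (M : ModuleCat.{0} A) (g : Qt J j ⟶ M) (hg : (θ J j M).hom g = 0) :
    g = 0 := by
  have h1 : Function.Injective ((K (Pr J j).complex M).homologyπ 0).hom :=
    (ModuleCat.mono_iff_injective _).1 inferInstance
  have h2 : ((K (Pr J j).complex M).liftCycles (aug J j M) 1 (by simp) (aug_d J j M)).hom g = 0 :=
    h1 (by rw [map_zero]; exact hg)
  have h3 : (aug J j M).hom g = 0 := by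
    rw [← (K (Pr J j).complex M).liftCycles_i (aug J j M) 1 (by simp) (aug_d J j M)]
    change ((K (Pr J j).complex M).iCycles 0).hom
      (((K (Pr J j).complex M).liftCycles (aug J j M) 1 (by simp) (aug_d J j M)).hom g) = 0
    rw [h2, map_zero]
  have h4 : (Pr J j).π.f 0 ≫ g = 0 := h3
  exact (cancel_epi ((Pr J j).π.f 0)).1 (h4.trans comp_zero.symm)

lemma θ_surj (j : ℕᵒᵖᵒᵖ) (M : ModuleCat.{0} A) (y : E J j 0 M) :
    ∃ g : Qt J j ⟶ M, (θ J j M).hom g = y := by
  have h1 : Function.Surjective ((K (Pr J j).complex M).homologyπ 0).hom :=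
    (ModuleCat.epi_iff_surjective _).1 inferInstance
  obtain ⟨c, rfl⟩ := h1 y
  let z : (Pr J j).complex.X 0 ⟶ M := ((K (Pr J j).complex M).iCycles 0).hom c
  have hz : (Pr J j).complex.d 1 0 ≫ z = 0 := by
    change ((K (Pr J j).complex M).iCycles 0 ≫ (K (Pr J j).complex M).d 0 1).hom c = 0
    rw [iCycles_d]
    rfl
  obtain ⟨g, hg⟩ := CokernelCofork.IsColimit.desc' (Pr J j).isColimitCokernelCofork z hz
  refine ⟨g, ?_⟩
  change ((K (Pr J j).complex M).homologyπ 0).hom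
    (((K (Pr J j).complex M).liftCycles (aug J j M) 1 (by simp) (aug_d J j M)).hom g) = _
  congr 1
  apply (ModuleCat.mono_iff_injective ((K (Pr J j).complex M).iCycles 0)).1 inferInstance
  change ((K (Pr J j).complex M).liftCycles (aug J j M) 1 (by simp) (aug_d J j M) ≫
    (K (Pr J j).complex M).iCycles 0).hom g = z
  rw [liftCycles_i]
  exact hg

/-- The class in degree zero local cohomology of a map out of `A / J ^ t`. -/
def cls (j : ℕᵒᵖᵒᵖ) {M : ModuleCat.{0} A} (g : Qt J j ⟶ M) : (localCohomology J 0).obj M :=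
  (io J j 0 M).hom ((θ J j M).hom g)

lemma cls_surj {M : ModuleCat.{0} A} (x : (localCohomology J 0).obj M) :
    ∃ j, ∃ g : Qt J j ⟶ M, cls J j g = x := by
  obtain ⟨j, y, rfl⟩ := io_surj J _ _ x
  obtain ⟨g, rfl⟩ := θ_surj J j M y
  exact ⟨j, g, rfl⟩

lemma cls_map (j : ℕᵒᵖᵒᵖ) {M N : ModuleCat.{0} A} (g : Qt J j ⟶ M) (h : M ⟶ N) :
    ((localCohomology J 0).map h).hom (cls J j g) = cls J j (g ≫ h) := by
  unfold cls
  rw [io_map_apply, θ_nat J (𝟙 _) (𝟙 _) (by simp) h g, Category.id_comp]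

lemma cls_tr {j k : ℕᵒᵖᵒᵖ} (w : j ⟶ k) {M : ModuleCat.{0} A} (g : Qt J j ⟶ M) :
    cls J k (qm J w ≫ g) = cls J j g := by
  unfold cls
  rw [← Etr_io J w 0 M]
  change _ = (io J k 0 M).hom ((Etr J w 0 M).hom ((θ J j M).hom g))
  rw [θ_nat J (tr J w) (qm J w) (tr_comm J w) (𝟙 M) g, Category.comp_id]

/-- The class of one. -/
def one (j : ℕᵒᵖᵒᵖ) : Qt J j := Ideal.Quotient.mk (J ^ j.unop.unop) 1

lemma qm_one {j k : ℕᵒᵖᵒᵖ} (w : j ⟶ k) : (qm J w).hom (one J k) = one J j := rfl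

lemma Qt_ext (j : ℕᵒᵖᵒᵖ) {M : ModuleCat.{0} A} (g h : Qt J j ⟶ M)
    (e : g.hom (one J j) = h.hom (one J j)) : g = h := by
  ext x
  obtain ⟨x, rfl⟩ := Ideal.Quotient.mk_surjective x
  have h1 : (Ideal.Quotient.mk (J ^ j.unop.unop) x : Qt J j) = x • one J j := by
    change _ = Ideal.Quotient.mk (J ^ j.unop.unop) (x * 1)
    rw [mul_one]
  change g.hom (Ideal.Quotient.mk (J ^ j.unop.unop) x : Qt J j) =
    h.hom (Ideal.Quotient.mk (J ^ j.unop.unop) x : Qt J j)
  rw [h1, map_smul, map_smul, e]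

lemma cls_eq_zero (j : ℕᵒᵖᵒᵖ) {M : ModuleCat.{0} A} (g : Qt J j ⟶ M) (h : cls J j g = 0) :
    g.hom (one J j) = 0 := by
  obtain ⟨k, w, hw⟩ := io_zero J j 0 M _ h
  rw [θ_nat J (tr J w) (qm J w) (tr_comm J w) (𝟙 M) g, Category.comp_id] at hw
  have h2 := θ_inj J k M _ hw
  rw [← qm_one J w]
  exact congrArg (fun ψ => ψ.hom (one J k)) h2

lemma cls_zero (j : ℕᵒᵖᵒᵖ) (M : ModuleCat.{0} A) : cls J j (0 : Qt J j ⟶ M) = 0 := by
  unfold cls
  have : (θ J j M).hom (0 : Qt J j ⟶ M) = 0 := map_zero _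
  rw [this, map_zero]

lemma exists_Qt_hom (j : ℕᵒᵖᵒᵖ) {M : ModuleCat.{0} A} (m : M)
    (hm : ∀ r ∈ J ^ j.unop.unop, r • m = 0) : ∃ g : Qt J j ⟶ M, g.hom (one J j) = m := by
  refine ⟨ModuleCat.ofHom (Submodule.liftQ (J ^ j.unop.unop) (LinearMap.toSpanSingleton A M m)
    (fun r hr => hm r hr)), ?_⟩
  change (1 : A) • m = m
  exact one_smul _ _

lemma H0_inj {M N : ModuleCat.{0} A} (h : M ⟶ N) (hh : Function.Injective h.hom) :
    Function.Injective ((localCohomology J 0).map h).hom := by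
  rw [injective_iff_map_eq_zero]
  intro x hx
  obtain ⟨j, g, rfl⟩ := cls_surj J x
  rw [cls_map] at hx
  have h1 : h.hom (g.hom (one J j)) = 0 := cls_eq_zero J j _ hx
  have h2 : g = 0 := Qt_ext J j _ _ (hh (by rw [h1]; exact (map_zero _).symm))
  rw [h2, cls_zero]

lemma H0_ne_zero {M : ModuleCat.{0} A} (hM : IsTors J M) (m : M) (hm : m ≠ 0) :
    ∃ x : (localCohomology J 0).obj M, x ≠ 0 := by
  obtain ⟨t, ht⟩ := hM m
  obtain ⟨g, hg⟩ := exists_Qt_hom J (op (op t)) m ht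
  exact ⟨cls J _ g, fun h => hm (hg ▸ cls_eq_zero J _ g h)⟩

lemma H0_surj {M N : ModuleCat.{0} A} (hM : IsTors J M) (h : M ⟶ N)
    (hh : Function.Surjective h.hom) :
    Function.Surjective ((localCohomology J 0).map h).hom := by
  intro x
  obtain ⟨j, g, rfl⟩ := cls_surj J x
  obtain ⟨m, hm⟩ := hh (g.hom (one J j))
  obtain ⟨t, ht⟩ := hM m
  let k : ℕᵒᵖᵒᵖ := op (op (max t j.unop.unop))
  let w : j ⟶ k := (homOfLE (le_max_right t j.unop.unop)).op.op
  obtain ⟨g', hg'⟩ := exists_Qt_hom J k m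
    (fun r hr => ht r (Ideal.pow_le_pow_right (le_max_left _ _) hr))
  refine ⟨cls J k g', ?_⟩
  rw [cls_map, ← cls_tr J w g]
  congr 1
  apply Qt_ext
  change h.hom (g'.hom (one J k)) = g.hom ((qm J w).hom (one J k))
  rw [hg', hm, qm_one]

end Pool.Agent.Lib.LocalCoh
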