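import Pool.Agent.Lib.LocalCoh.Vanish

/-!
Regular sequences, and diagram chases in the long exact sequence of local cohomology.
-/

set_option autoImplicit false

open CategoryTheory Limits Opposite HomologicalComplex localCohomology

noncomputable section

namespace Pool.Agent.Lib.LocalCoh

variable {A : Type} [CommRing A] (J : Ideal A)

section chase

variable {S T : ShortComplex (ModuleCat.{0} A)} (hS : S.ShortExact) (hT : T.ShortExact)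
  (τ : S ⟶ T)

lemma Hmap_sq (i : ℕ) {M N M' N' : ModuleCat.{0} A} {f : M ⟶ N} {f' : M' ⟶ N'} {a : M ⟶ M'}
    {b : N ⟶ N'} (h : a ≫ f' = f ≫ b) (x : (localCohomology J i).obj M) :
    ((localCohomology J i).map f').hom (((localCohomology J i).map a).hom x) =
      ((localCohomology J i).map b).hom (((localCohomology J i).map f).hom x) := by
  rw [← Hmap_comp, h, Hmap_comp]

include hS hT in
lemma inj_push {i : ℕ} (h₂ : Van J i S.X₂) (h₁ : Inj J (i + 1) τ.τ₁) : Inj J i τ.τ₃ := by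
  rw [inj_iff] at h₁ ⊢
  intro z hz
  have h := δ_nat J hS hT τ i z
  rw [hz, map_zero] at h
  obtain ⟨y, rfl⟩ := exact₃ J hS i z (h₁ _ h)
  rw [h₂ y, map_zero]

include hS hT in
lemma inj_lift {i : ℕ} (h₃ : Van J (i + 1) S.X₃) (h₃' : Van J i T.X₃)
    (h₁ : Inj J (i + 1) τ.τ₁) : Inj J (i + 1) τ.τ₂ := by
  rw [inj_iff] at h₁ ⊢
  intro y hy
  obtain ⟨x, rfl⟩ := exact₂ J hS (i + 1) y (h₃ _)
  rw [← Hmap_sq J (i + 1) τ.comm₁₂] at hy
  obtain ⟨z, hz⟩ := exact₁ J hT i _ hy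
  rw [h₃' z, map_zero] at hz
  rw [h₁ x hz.symm, map_zero]

include hS hT in
lemma inj_delta_aux {i : ℕ} (h₂' : Van J i T.X₂) (h₃ : Inj J i τ.τ₃)
    (x : (localCohomology J (i + 1)).obj S.X₁)
    (hx : ((localCohomology J (i + 1)).map S.f).hom x = 0)
    (hx' : ((localCohomology J (i + 1)).map τ.τ₁).hom x = 0) : x = 0 := by
  rw [inj_iff] at h₃
  obtain ⟨z, rfl⟩ := exact₁ J hS i x hx
  rw [δ_nat J hS hT τ i z] at hx'
  obtain ⟨y, hy⟩ := exact₃ J hT i _ hx'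
  rw [h₂' y, map_zero] at hy
  rw [h₃ z hy.symm, map_zero]

include hS hT in
lemma inj_delta {i : ℕ} (h₂ : Van J (i + 1) S.X₂) (h₂' : Van J i T.X₂) (h₃ : Inj J i τ.τ₃) :
    Inj J (i + 1) τ.τ₁ :=
  (inj_iff J _ _).2 (fun x hx => inj_delta_aux J hS hT τ h₂' h₃ x (h₂ _) hx)

include hS in
lemma inj_sub {i : ℕ} (h₃ : Van J i S.X₃) : Inj J (i + 1) S.f := by
  rw [inj_iff]
  intro x hx
  obtain ⟨z, rfl⟩ := exact₁ J hS i x hx
  rw [h₃ z, map_zero]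

lemma inj_of_sq {i : ℕ} {M N M' N' : ModuleCat.{0} A} {f : M ⟶ N} {f' : M' ⟶ N'} {a : M ⟶ M'}
    {b : N ⟶ N'} (h : a ≫ f' = f ≫ b) (hf : Inj J i f) (hb : Inj J i b) : Inj J i a := by
  rw [inj_iff] at hf hb ⊢
  intro x hx
  apply hf
  apply hb
  rw [← Hmap_sq J i h, hx, map_zero]

lemma van_of_inj {i : ℕ} {M N : ModuleCat.{0} A} {f : M ⟶ N} (hf : Inj J i f) (h : Van J i N) :
    Van J i M := fun x => (inj_iff J i f).1 hf x (h _)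

end chase

/-- A regular element. -/
def Reg1 (a : A) (M : Type) [AddCommGroup M] [Module A M] : Prop := ∀ m : M, a • m = 0 → m = 0

/-- A regular sequence of length two. -/
def Reg2 (a b : A) (M : Type) [AddCommGroup M] [Module A M] : Prop :=
  Reg1 a M ∧ ∀ m m₁ : M, b • m = a • m₁ → ∃ n₁ : M, m = a • n₁

/-- A regular sequence of length three. -/
def Reg3 (a b c : A) (M : Type) [AddCommGroup M] [Module A M] : Prop :=
  Reg2 a b M ∧ ∀ m m₁ m₂ : M, c • m = a • m₁ + b • m₂ → ∃ n₁ n₂ : M, m = a • n₁ + b • n₂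

/-- The quotient by a scalar. -/
abbrev Qa (a : A) (M : ModuleCat.{0} A) : ModuleCat.{0} A := Cok (a • 𝟙 M)

lemma Qa_zero (a : A) (M : ModuleCat.{0} A) (m : M) :
    (cokπ (a • 𝟙 M)).hom m = 0 ↔ ∃ n : M, a • n = m := cokπ_eq_zero _ _

lemma Qa_eq (a : A) (M : ModuleCat.{0} A) (m m' : M) :
    (cokπ (a • 𝟙 M)).hom m = (cokπ (a • 𝟙 M)).hom m' ↔ ∃ n : M, m = a • n + m' := by
  rw [← sub_eq_zero, ← map_sub, Qa_zero]
  constructor
  · rintro ⟨n, hn⟩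
    exact ⟨n, by rw [hn, sub_add_cancel]⟩
  · rintro ⟨n, hn⟩
    exact ⟨n, by rw [hn, add_sub_cancel_right]⟩

lemma QaSE {a : A} {M : ModuleCat.{0} A} (h : Reg1 a M) :
    (ShortComplex.mk (a • 𝟙 M) (cokπ _) (cok_zero _)).ShortExact :=
  cokSE _ ((injective_iff_map_eq_zero _).2 h)

lemma reg1_Qa {a b : A} {M : ModuleCat.{0} A} (h : Reg2 a b M) : Reg1 b (Qa a M) := by
  intro z hz
  obtain ⟨m, rfl⟩ := cokπ_surj _ z
  rw [← map_smul, Qa_zero] at hz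
  obtain ⟨m₁, h₁⟩ := hz
  obtain ⟨n, hn⟩ := h.2 m m₁ h₁.symm
  exact (Qa_zero a M m).2 ⟨n, hn.symm⟩

lemma reg2_Qa {a b c : A} {M : ModuleCat.{0} A} (h : Reg3 a b c M) : Reg2 b c (Qa a M) := by
  refine ⟨reg1_Qa h.1, fun z z₁ hz => ?_⟩
  obtain ⟨m, rfl⟩ := cokπ_surj _ z
  obtain ⟨m₂, rfl⟩ := cokπ_surj _ z₁
  rw [← map_smul, ← map_smul, Qa_eq] at hz
  obtain ⟨m₁, h₁⟩ := hz
  obtain ⟨n₁, n₂, hn⟩ := h.2 m m₁ m₂ h₁
  refine ⟨(cokπ (a • 𝟙 M)).hom n₂, ?_⟩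
  rw [← map_smul, Qa_eq]
  exact ⟨n₁, hn⟩

lemma Hmap_sm (i : ℕ) (a : A) (M : ModuleCat.{0} A) (x : (localCohomology J i).obj M) :
    ((localCohomology J i).map (a • 𝟙 M)).hom x = a • x := by
  rw [Hmap_smul, Hmap_id]

lemma eq_zero_of_socle {i : ℕ} {a : A} (ha : a ∈ J) {M : ModuleCat.{0} A}
    (N : Submodule A ((localCohomology J i).obj M)) (h : ∀ y ∈ N, a • y = 0 → y = 0) :
    ∀ x ∈ N, x = 0 := by
  have key : ∀ (n : ℕ), ∀ x ∈ N, a ^ n • x = 0 → x = 0 := by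
    intro n
    induction n with
    | zero => intro x _ hx; rwa [pow_zero, one_smul] at hx
    | succ n ih =>
      intro x hx hx'
      rw [pow_succ', mul_smul] at hx'
      exact ih x hx (h _ (N.smul_mem _ hx) hx')
  intro x hx
  obtain ⟨t, ht⟩ := H_tors J i M x
  exact key t x hx (ht _ (Ideal.pow_mem_pow ha t))

lemma van0 {a : A} (ha : a ∈ J) {M : ModuleCat.{0} A} (h : Reg1 a M) : Van J 0 M := by
  intro x
  refine eq_zero_of_socle J ha ⊤ (fun y _ hy => ?_) x trivial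
  rw [← Hmap_sm] at hy
  exact (inj_iff J 0 _).1 (H0_inj J (a • 𝟙 M) ((injective_iff_map_eq_zero _).2 h)) y hy

lemma van_step {i : ℕ} {a : A} (ha : a ∈ J) {M : ModuleCat.{0} A} (h : Reg1 a M)
    (hv : Van J i (Qa a M)) : Van J (i + 1) M := by
  intro x
  refine eq_zero_of_socle J ha ⊤ (fun y _ hy => ?_) x trivial
  rw [← Hmap_sm] at hy
  exact (inj_iff J _ _).1 (inj_sub J (QaSE h) hv) y hy

lemma van1 {a b : A} (ha : a ∈ J) (hb : b ∈ J) {M : ModuleCat.{0} A} (h : Reg2 a b M) :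
    Van J 1 M := van_step J ha h.1 (van0 J hb (reg1_Qa h))

lemma van2 {a b c : A} (ha : a ∈ J) (hb : b ∈ J) (hc : c ∈ J) {M : ModuleCat.{0} A}
    (h : Reg3 a b c M) : Van J 2 M := van_step J ha h.1.1 (van1 J hb hc (reg2_Qa h))

lemma sm_comm (a : A) {M M' : ModuleCat.{0} A} (φ : M ⟶ M') :
    φ ≫ (a • 𝟙 M') = (a • 𝟙 M) ≫ φ := by simp

lemma inj_step {i : ℕ} {a : A} (ha : a ∈ J) {M M' : ModuleCat.{0} A} (φ : M ⟶ M')
    (h : Reg1 a M) (h' : Reg1 a M') (hv : Van J i M')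
    (hi : Inj J i (cokMap _ _ φ φ (sm_comm a φ))) : Inj J (i + 1) φ := by
  rw [inj_iff]
  intro x hx
  refine eq_zero_of_socle J ha (LinearMap.ker ((localCohomology J (i + 1)).map φ).hom)
    (fun y hy hy' => ?_) x hx
  rw [← Hmap_sm] at hy'
  exact inj_delta_aux J (QaSE h) (QaSE h') (cokHom _ _ φ φ (sm_comm a φ)) hv hi y hy' hy

lemma inj2 {a b : A} (ha : a ∈ J) (hb : b ∈ J) {M M' : ModuleCat.{0} A} (φ : M ⟶ M')
    (h : Reg2 a b M) (h' : Reg2 a b M')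
    (hr : ∀ (m : M) (m₁ m₂ : M'), φ.hom m = a • m₁ + b • m₂ → ∃ n₁ n₂ : M, m = a • n₁ + b • n₂) :
    Inj J 2 φ := by
  refine inj_step J ha φ h.1 h'.1 (van1 J ha hb h') ?_
  refine inj_step J hb _ (reg1_Qa h) (reg1_Qa h') (van0 J hb (reg1_Qa h')) ?_
  apply H0_inj
  apply cokMap_inj
  intro y x' hx'
  obtain ⟨m, rfl⟩ := cokπ_surj _ y
  obtain ⟨m₂, rfl⟩ := cokπ_surj _ x'
  have h1 : (cokπ (a • 𝟙 M')).hom (φ.hom m) = (cokπ (a • 𝟙 M')).hom (b • m₂) := by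
    rw [map_smul]
    exact hx'.symm
  obtain ⟨m₁, h₁⟩ := (Qa_eq a M' _ _).1 h1
  obtain ⟨n₁, n₂, hn⟩ := hr m m₁ m₂ h₁
  refine ⟨(cokπ (a • 𝟙 M)).hom n₂, ?_⟩
  change b • (cokπ (a • 𝟙 M)).hom n₂ = _
  rw [← map_smul, eq_comm, Qa_eq]
  exact ⟨n₁, hn⟩

/-- Two connecting maps in a row. -/
lemma inj_push2 {i : ℕ} {L M N L' M' N' : ModuleCat.{0} A} (f : L ⟶ M) (g : M ⟶ N)
    (f' : L' ⟶ M') (g' : M' ⟶ N') (a : L ⟶ L') (b : M ⟶ M') (c : N ⟶ N')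
    (h₁ : a ≫ f' = f ≫ b) (h₂ : b ≫ g' = g ≫ c)
    (hf : Function.Injective f.hom) (hf' : Function.Injective f'.hom)
    (e : ∀ y, g.hom y = 0 ↔ ∃ x, f.hom x = y) (e' : ∀ y, g'.hom y = 0 ↔ ∃ x, f'.hom x = y)
    (hM : Van J (i + 1) M) (hN : Van J i N) (ha : Inj J (i + 2) a) :
    Inj J i (cokMap g g' b c h₂) := by
  have hb := inj_push J (cokSE f hf) (cokSE f' hf') (cokHom f f' a b h₁) hM ha
  let u : Cok f ⟶ N := ModuleCat.ofHom (Submodule.liftQ _ g.hom (by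
    rintro _ ⟨x, rfl⟩
    exact (e _).2 ⟨x, rfl⟩))
  let u' : Cok f' ⟶ N' := ModuleCat.ofHom (Submodule.liftQ _ g'.hom (by
    rintro _ ⟨x, rfl⟩
    exact (e' _).2 ⟨x, rfl⟩))
  have hu : Function.Injective u.hom := by
    rw [injective_iff_map_eq_zero]
    intro z hz
    obtain ⟨y, rfl⟩ := cokπ_surj f z
    exact (cokπ_eq_zero f y).2 ((e y).1 hz)
  have hu' : Function.Injective u'.hom := by
    rw [injective_iff_map_eq_zero]
    intro z hz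
    obtain ⟨y, rfl⟩ := cokπ_surj f' z
    exact (cokπ_eq_zero f' y).2 ((e' y).1 hz)
  have z : u ≫ cokπ g = 0 := by
    apply ModuleCat.hom_ext
    apply LinearMap.ext
    intro z
    obtain ⟨y, rfl⟩ := cokπ_surj f z
    exact (cokπ_eq_zero g _).2 ⟨y, rfl⟩
  have z' : u' ≫ cokπ g' = 0 := by
    apply ModuleCat.hom_ext
    apply LinearMap.ext
    intro z
    obtain ⟨y, rfl⟩ := cokπ_surj f' z
    exact (cokπ_eq_zero g' _).2 ⟨y, rfl⟩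
  have s := mkSE u (cokπ g) z hu (cokπ_surj g) (fun y hy => by
    obtain ⟨x, rfl⟩ := (cokπ_eq_zero g y).1 hy
    exact ⟨(cokπ f).hom x, rfl⟩)
  have s' := mkSE u' (cokπ g') z' hu' (cokπ_surj g') (fun y hy => by
    obtain ⟨x, rfl⟩ := (cokπ_eq_zero g' y).1 hy
    exact ⟨(cokπ f').hom x, rfl⟩)
  let τ : ShortComplex.mk u (cokπ g) z ⟶ ShortComplex.mk u' (cokπ g') z' :=
    { τ₁ := cokMap f f' a b h₁
      τ₂ := c
      τ₃ := cokMap g g' b c h₂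
      comm₁₂ := by
        apply ModuleCat.hom_ext
        apply LinearMap.ext
        intro z
        obtain ⟨y, rfl⟩ := cokπ_surj f z
        exact congrArg (fun ψ => ψ.hom y) h₂
      comm₂₃ := rfl }
  exact inj_push J s s' τ hN hb

variable [IsNoetherianRing A]

lemma vanTop1 {a : A} (ha : a ∈ J) {M : ModuleCat.{0} A} (h : Reg1 a M)
    (ht : ∀ m : M, ∀ r ∈ J, ∃ (n : ℕ) (m₁ : M), r ^ n • m = a • m₁) (i : ℕ) :
    Van J (i + 2) M := by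
  refine van_step J ha h (van_tors J i _ (isTors_of_pow J (fun z r hr => ?_)))
  obtain ⟨m, rfl⟩ := cokπ_surj _ z
  obtain ⟨n, m₁, hn⟩ := ht m r hr
  exact ⟨n, by rw [← map_smul, Qa_zero]; exact ⟨m₁, hn.symm⟩⟩

lemma vanTop2 {a b : A} (ha : a ∈ J) (hb : b ∈ J) {M : ModuleCat.{0} A} (h : Reg2 a b M)
    (ht : ∀ m : M, ∀ r ∈ J, ∃ (n : ℕ) (m₁ m₂ : M), r ^ n • m = a • m₁ + b • m₂) (i : ℕ) :
    Van J (i + 3) M := by
  refine van_step J ha h.1 (vanTop1 J hb (reg1_Qa h) (fun z r hr => ?_) i)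
  obtain ⟨m, rfl⟩ := cokπ_surj _ z
  obtain ⟨n, m₁, m₂, hn⟩ := ht m r hr
  refine ⟨n, (cokπ (a • 𝟙 M)).hom m₂, ?_⟩
  rw [← map_smul, ← map_smul, Qa_eq]
  exact ⟨m₁, hn⟩

lemma vanTop1_cok {a : A} (ha : a ∈ J) {M N : ModuleCat.{0} A} (f : M ⟶ N)
    (h : ∀ (y : N) (x : M), f.hom x = a • y → ∃ x', f.hom x' = y)
    (ht : ∀ y : N, ∀ r ∈ J, ∃ (n : ℕ) (y₁ : N) (x : M), r ^ n • y = a • y₁ + f.hom x) (i : ℕ) :
    Van J (i + 2) (Cok f) := by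
  refine vanTop1 J ha (fun z hz => ?_) (fun z r hr => ?_) i
  · obtain ⟨y, rfl⟩ := cokπ_surj _ z
    rw [← map_smul, cokπ_eq_zero] at hz
    obtain ⟨x, hx⟩ := hz
    exact (cokπ_eq_zero f y).2 (h y x hx)
  · obtain ⟨y, rfl⟩ := cokπ_surj _ z
    obtain ⟨n, y₁, x, hn⟩ := ht y r hr
    refine ⟨n, (cokπ f).hom y₁, ?_⟩
    rw [← map_smul, hn, map_add, (cokπ_eq_zero f _).2 ⟨x, rfl⟩, add_zero, map_smul]

lemma van_cok_tors {M N : ModuleCat.{0} A} (f : M ⟶ N)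
    (ht : ∀ y : N, ∀ r ∈ J, ∃ (n : ℕ) (x : M), r ^ n • y = f.hom x) (i : ℕ) :
    Van J (i + 1) (Cok f) := by
  refine van_tors J i _ (isTors_of_pow J (fun z r hr => ?_))
  obtain ⟨y, rfl⟩ := cokπ_surj _ z
  obtain ⟨n, x, hn⟩ := ht y r hr
  exact ⟨n, by rw [← map_smul, cokπ_eq_zero]; exact ⟨x, hn.symm⟩⟩

/-- A nonzero class in degree one killed by a given map. -/
lemma not_inj1 {a : A} (ha : a ∈ J) {O P P' : ModuleCat.{0} A} (h : Reg1 a O)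
    (ht : ∀ m : O, ∀ r ∈ J, ∃ (n : ℕ) (m₁ : O), r ^ n • m = a • m₁)
    (m₀ : O) (hm₀ : ∀ m₁ : O, a • m₁ ≠ m₀) (j : O ⟶ P) (c : P ⟶ O) (hjc : j ≫ c = 𝟙 O)
    (φ : P ⟶ P') (G : O ⟶ P')
    (hG : ∀ m : O, ∀ r ∈ J, ∃ n : ℕ, r ^ n • (φ.hom (j.hom m) - G.hom (a • m)) = 0) :
    ¬ Inj J 1 φ := by
  intro hφ
  have hT : IsTors J (Qa a O) := isTors_of_pow J (fun z r hr => by
    obtain ⟨m, rfl⟩ := cokπ_surj _ z
    obtain ⟨n, m₁, hn⟩ := ht m r hr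
    exact ⟨n, by rw [← map_smul, Qa_zero]; exact ⟨m₁, hn.symm⟩⟩)
  obtain ⟨z, hz⟩ := H0_ne_zero J hT ((cokπ (a • 𝟙 O)).hom m₀) (fun h0 => by
    obtain ⟨m₁, h₁⟩ := (Qa_zero a O m₀).1 h0
    exact hm₀ m₁ h₁)
  let η : (localCohomology J 1).obj O := (δ J (QaSE h) 0).hom z
  have h1 : ((localCohomology J 1).map (a • 𝟙 O)).hom η = 0 := δ_comp J (QaSE h) 0 z
  have h2 : ((localCohomology J 1).map (j ≫ φ - (a • 𝟙 O) ≫ G)).hom η = 0 :=
    Hmap_eq_zero_of_tors J 0 _ hG η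
  have h3 : j ≫ φ = (j ≫ φ - (a • 𝟙 O) ≫ G) + (a • 𝟙 O) ≫ G := (sub_add_cancel _ _).symm
  have h4 : ((localCohomology J 1).map (j ≫ φ)).hom η = 0 := by
    rw [h3, Hmap_add, h2, Hmap_comp, h1, map_zero, add_zero]
  rw [Hmap_comp] at h4
  have h5 := (inj_iff J 1 φ).1 hφ _ h4
  have h6 : η = 0 := by
    rw [← Hmap_id J 1 O η, ← hjc, Hmap_comp, h5, map_zero]
  obtain ⟨y, hy⟩ := exact₃ J (QaSE h) 0 z h6
  rw [van0 J ha h y, map_zero] at hy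
  exact hz hy.symm

end Pool.Agent.Lib.LocalCoh
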