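import Pool.Agent.Lib.LocalCoh.Props

/-!
Vanishing and injectivity criteria for local cohomology.
-/

set_option autoImplicit false

open CategoryTheory Limits Opposite HomologicalComplex localCohomology

noncomputable section

namespace Pool.Agent.Lib.LocalCoh

variable {A : Type} [CommRing A] (J : Ideal A)

lemma mkSE {M₁ M₂ M₃ : ModuleCat.{0} A} (f : M₁ ⟶ M₂) (g : M₂ ⟶ M₃) (h0 : f ≫ g = 0)
    (hi : Function.Injective f.hom) (hs : Function.Surjective g.hom)
    (hex : ∀ y, g.hom y = 0 → ∃ x, f.hom x = y) : (ShortComplex.mk f g h0).ShortExact where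
  exact := (ShortComplex.moduleCat_exact_iff _).2 hex
  mono_f := (ModuleCat.mono_iff_injective _).2 hi
  epi_g := (ModuleCat.epi_iff_surjective _).2 hs

/-- The cokernel. -/
abbrev Cok {M N : ModuleCat.{0} A} (f : M ⟶ N) : ModuleCat.{0} A :=
  ModuleCat.of A (N ⧸ LinearMap.range f.hom)

/-- The projection to the cokernel. -/
abbrev cokπ {M N : ModuleCat.{0} A} (f : M ⟶ N) : N ⟶ Cok f :=
  ModuleCat.ofHom (LinearMap.range f.hom).mkQ

lemma cok_zero {M N : ModuleCat.{0} A} (f : M ⟶ N) : f ≫ cokπ f = 0 := by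
  ext x
  exact (Submodule.Quotient.mk_eq_zero _).2 ⟨x, rfl⟩

lemma cokπ_eq_zero {M N : ModuleCat.{0} A} (f : M ⟶ N) (y : N) :
    (cokπ f).hom y = 0 ↔ ∃ x, f.hom x = y := Submodule.Quotient.mk_eq_zero _

lemma cokπ_surj {M N : ModuleCat.{0} A} (f : M ⟶ N) : Function.Surjective (cokπ f).hom :=
  Submodule.mkQ_surjective _

lemma cokSE {M N : ModuleCat.{0} A} (f : M ⟶ N) (hi : Function.Injective f.hom) :
    (ShortComplex.mk f (cokπ f) (cok_zero f)).ShortExact :=
  mkSE _ _ _ hi (cokπ_surj f) (fun y hy => (cokπ_eq_zero f y).1 hy)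

/-- The map induced on cokernels. -/
def cokMap {M N M' N' : ModuleCat.{0} A} (f : M ⟶ N) (f' : M' ⟶ N') (a : M ⟶ M') (b : N ⟶ N')
    (h : a ≫ f' = f ≫ b) : Cok f ⟶ Cok f' :=
  ModuleCat.ofHom (Submodule.mapQ _ _ b.hom (by
    rintro _ ⟨x, rfl⟩
    exact ⟨a.hom x, congrArg (fun ψ => ψ.hom x) h⟩))

lemma cokMap_π {M N M' N' : ModuleCat.{0} A} (f : M ⟶ N) (f' : M' ⟶ N') (a : M ⟶ M')
    (b : N ⟶ N') (h : a ≫ f' = f ≫ b) (y : N) :
    (cokMap f f' a b h).hom ((cokπ f).hom y) = (cokπ f').hom (b.hom y) := rfl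

/-- The morphism of short exact sequences given by a commutative square. -/
def cokHom {M N M' N' : ModuleCat.{0} A} (f : M ⟶ N) (f' : M' ⟶ N') (a : M ⟶ M') (b : N ⟶ N')
    (h : a ≫ f' = f ≫ b) :
    ShortComplex.mk f (cokπ f) (cok_zero f) ⟶ ShortComplex.mk f' (cokπ f') (cok_zero f') where
  τ₁ := a
  τ₂ := b
  τ₃ := cokMap f f' a b h
  comm₁₂ := h
  comm₂₃ := rfl

lemma cokMap_inj {M N M' N' : ModuleCat.{0} A} (f : M ⟶ N) (f' : M' ⟶ N') (a : M ⟶ M')
    (b : N ⟶ N') (h : a ≫ f' = f ≫ b)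
    (hr : ∀ y x', f'.hom x' = b.hom y → ∃ x, f.hom x = y) :
    Function.Injective (cokMap f f' a b h).hom := by
  rw [injective_iff_map_eq_zero]
  intro z hz
  obtain ⟨y, rfl⟩ := cokπ_surj f z
  rw [cokMap_π, cokπ_eq_zero] at hz
  obtain ⟨x', hx'⟩ := hz
  exact (cokπ_eq_zero f y).2 (hr y x' hx')

/-- The induced map on local cohomology is injective. -/
def Inj (i : ℕ) {M N : ModuleCat.{0} A} (φ : M ⟶ N) : Prop :=
  Function.Injective ((localCohomology J i).map φ).hom

lemma inj_iff (i : ℕ) {M N : ModuleCat.{0} A} (φ : M ⟶ N) :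
    Inj J i φ ↔ ∀ x, ((localCohomology J i).map φ).hom x = 0 → x = 0 :=
  injective_iff_map_eq_zero _

lemma inj_of_van {i : ℕ} {M N : ModuleCat.{0} A} (φ : M ⟶ N) (h : Van J i M) : Inj J i φ :=
  (inj_iff J i φ).2 (fun x _ => h x)

/-- The `J`-power torsion submodule. -/
def Gam (M : Type) [AddCommGroup M] [Module A M] : Submodule A M where
  carrier := {m | ∃ t : ℕ, ∀ r ∈ J ^ t, r • m = 0}
  add_mem' := by
    rintro a b ⟨s, hs⟩ ⟨t, ht⟩
    refine ⟨max s t, fun r hr => ?_⟩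
    rw [smul_add, hs r (Ideal.pow_le_pow_right (le_max_left _ _) hr),
      ht r (Ideal.pow_le_pow_right (le_max_right _ _) hr), add_zero]
  zero_mem' := ⟨0, fun r _ => smul_zero r⟩
  smul_mem' := by
    rintro c a ⟨s, hs⟩
    exact ⟨s, fun r hr => by rw [smul_comm, hs r hr, smul_zero]⟩

lemma Gam_tors (M : Type) [AddCommGroup M] [Module A M] : IsTors J (Gam J M) := by
  rintro ⟨m, t, ht⟩
  exact ⟨t, fun r hr => Subtype.ext (ht r hr)⟩

lemma tors_uniform {M : Type} [AddCommGroup M] [Module A M] (hM : IsTors J M)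
    (N : Submodule A M) (hN : N.FG) : ∃ t : ℕ, ∀ r ∈ J ^ t, ∀ m ∈ N, r • m = 0 := by
  induction N, hN using Submodule.fg_induction with
  | singleton x =>
    obtain ⟨t, ht⟩ := hM x
    refine ⟨t, fun r hr m hm => ?_⟩
    obtain ⟨c, rfl⟩ := Submodule.mem_span_singleton.1 hm
    rw [smul_comm, ht r hr, smul_zero]
  | sup N₁ N₂ _ _ h₁ h₂ =>
    obtain ⟨s, hs⟩ := h₁
    obtain ⟨t, ht⟩ := h₂
    refine ⟨max s t, fun r hr m hm => ?_⟩
    obtain ⟨a, ha, b, hb, rfl⟩ := Submodule.mem_sup.1 hm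
    rw [smul_add, hs r (Ideal.pow_le_pow_right (le_max_left _ _) hr) a ha,
      ht r (Ideal.pow_le_pow_right (le_max_right _ _) hr) b hb, add_zero]

variable [IsNoetherianRing A]

lemma Gam_injective (M : Type) [AddCommGroup M] [Module A M] [hM : Module.Injective A M] :
    Module.Injective A (Gam J M) := by
  apply Module.Baer.injective
  intro I g
  have hfg : (LinearMap.range g).FG := by
    rw [LinearMap.range_eq_map]
    exact Submodule.FG.map _ (IsNoetherian.noetherian _)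
  obtain ⟨s, hs⟩ := tors_uniform J (Gam_tors J M) _ hfg
  obtain ⟨k, hk⟩ := Ideal.exists_pow_inf_eq_pow_smul J (M := A) I
  have hk' := hk (k + s) (Nat.le_add_right _ _)
  rw [Nat.add_sub_cancel_left] at hk'
  let q : I →ₗ[A] A ⧸ J ^ (k + s) := (J ^ (k + s)).mkQ.comp I.subtype
  have hker : LinearMap.ker q ≤ LinearMap.ker ((Gam J M).subtype.comp g) := by
    rintro ⟨x, hx⟩ hq
    have h1 : x ∈ J ^ (k + s) := (Submodule.Quotient.mk_eq_zero _).1 hq
    have h2 : x ∈ (J ^ (k + s) • ⊤ ⊓ I : Submodule A A) := by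
      refine ⟨?_, hx⟩
      simpa using h1
    rw [hk'] at h2
    have h3 : x ∈ (J ^ s • I : Submodule A A) := Submodule.smul_mono le_rfl inf_le_right h2
    have h4 : ∀ y ∈ (J ^ s • I : Submodule A A), ∃ hy : y ∈ I, g ⟨y, hy⟩ = 0 := by
      intro y hy
      refine Submodule.smul_induction_on hy ?_ ?_
      · intro r hr n hn
        refine ⟨I.smul_mem r hn, ?_⟩
        have : (⟨r • n, I.smul_mem r hn⟩ : I) = r • ⟨n, hn⟩ := rfl
        rw [this, map_smul]
        exact hs r hr _ ⟨_, rfl⟩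
      · rintro a b ⟨ha, ha'⟩ ⟨hb, hb'⟩
        refine ⟨I.add_mem ha hb, ?_⟩
        have : (⟨a + b, I.add_mem ha hb⟩ : I) = ⟨a, ha⟩ + ⟨b, hb⟩ := rfl
        rw [this, map_add, ha', hb', add_zero]
    obtain ⟨_, h5⟩ := h4 x h3
    change ((g ⟨x, hx⟩ : Gam J M) : M) = 0
    rw [h5]
    rfl
  obtain ⟨h, hh⟩ := hM.out ((LinearMap.ker q).liftQ q le_rfl)
    (LinearMap.ker_eq_bot.1 (Submodule.ker_liftQ_eq_bot _ _ _ le_rfl))
    ((LinearMap.ker q).liftQ _ hker)
  have hmem : h (Submodule.Quotient.mk 1) ∈ Gam J M := by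
    refine ⟨k + s, fun r hr => ?_⟩
    rw [← map_smul, ← Submodule.Quotient.mk_smul, (Submodule.Quotient.mk_eq_zero _).2, map_zero]
    simpa using hr
  refine ⟨LinearMap.toSpanSingleton A _ ⟨_, hmem⟩, fun x hx => Subtype.ext ?_⟩
  have h6 := hh (Submodule.Quotient.mk ⟨x, hx⟩)
  change x • h (Submodule.Quotient.mk 1) = _
  rw [← map_smul, ← Submodule.Quotient.mk_smul, smul_eq_mul, mul_one]
  exact h6

lemma van_tors (i : ℕ) : ∀ (M : ModuleCat.{0} A), IsTors J M → Van J (i + 1) M := by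
  have key : ∀ (M : ModuleCat.{0} A), IsTors J M → ∃ (T : ModuleCat.{0} A) (f : M ⟶ T),
      IsTors J T ∧ Function.Injective f.hom ∧ ∀ n, Van J (n + 1) T := by
    intro M hM
    have h1 : Module.Injective A (Injective.under M : ModuleCat.{0} A) :=
      Module.injective_module_of_injective_object A _ (inj := Injective.injective_under M)
    have h2 := Gam_injective J (Injective.under M : ModuleCat.{0} A)
    have h3 : Injective (ModuleCat.of A (Gam J (Injective.under M : ModuleCat.{0} A))) :=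
      Module.injective_object_of_injective_module A _
    refine ⟨ModuleCat.of A (Gam J (Injective.under M : ModuleCat.{0} A)),
      ModuleCat.ofHom ((Injective.ι M).hom.codRestrict _ ?_), Gam_tors J _, ?_,
      fun n => van_injective J n _⟩
    · intro m
      obtain ⟨t, ht⟩ := hM m
      exact ⟨t, fun r hr => by rw [← map_smul, ht r hr, map_zero]⟩
    · intro a b hab
      exact (ModuleCat.mono_iff_injective (Injective.ι M)).1 inferInstance
        (congrArg Subtype.val hab)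
  have cok_tors : ∀ {M T : ModuleCat.{0} A} (f : M ⟶ T), IsTors J T → IsTors J (Cok f) := by
    intro M T f hT z
    obtain ⟨y, rfl⟩ := cokπ_surj f z
    obtain ⟨t, ht⟩ := hT y
    exact ⟨t, fun r hr => by rw [← map_smul, ht r hr, map_zero]⟩
  induction i with
  | zero =>
    intro M hM x
    obtain ⟨T, f, hT, hf, hv⟩ := key M hM
    obtain ⟨z, rfl⟩ := exact₁ J (cokSE f hf) 0 x (hv 0 _)
    obtain ⟨y, rfl⟩ := H0_surj J hT (cokπ f) (cokπ_surj f) z
    exact comp_δ J (cokSE f hf) 0 y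
  | succ n ih =>
    intro M hM x
    obtain ⟨T, f, hT, hf, hv⟩ := key M hM
    obtain ⟨z, rfl⟩ := exact₁ J (cokSE f hf) (n + 1) x (hv _ _)
    rw [ih _ (cok_tors f hT) z, map_zero]

lemma isTors_of_pow {M : Type} [AddCommGroup M] [Module A M]
    (h : ∀ m : M, ∀ r ∈ J, ∃ n : ℕ, r ^ n • m = 0) : IsTors J M := by
  intro m
  obtain ⟨t, ht⟩ := Ideal.exists_pow_le_of_le_radical_of_fg (I := J)
    (J := LinearMap.ker (LinearMap.toSpanSingleton A M m))
    (fun r hr => h m r hr) (IsNoetherian.noetherian _)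
  exact ⟨t, fun r hr => ht hr⟩

lemma Hmap_eq_zero_of_tors (i : ℕ) {M N : ModuleCat.{0} A} (g : M ⟶ N)
    (h : ∀ m : M, ∀ r ∈ J, ∃ n : ℕ, r ^ n • g.hom m = 0)
    (x : (localCohomology J (i + 1)).obj M) : ((localCohomology J (i + 1)).map g).hom x = 0 := by
  have hT : IsTors J (ModuleCat.of A (LinearMap.range g.hom)) := by
    apply isTors_of_pow
    rintro ⟨_, m, rfl⟩ r hr
    obtain ⟨n, hn⟩ := h m r hr
    exact ⟨n, Subtype.ext hn⟩
  have e : g = ModuleCat.ofHom g.hom.rangeRestrict ≫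
    ModuleCat.ofHom (LinearMap.range g.hom).subtype := rfl
  rw [e, Hmap_comp, van_tors J i _ hT (((localCohomology J (i + 1)).map _).hom x), map_zero]

end Pool.Agent.Lib.LocalCoh
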